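import Mathlib

/-!
Ring theoretic part: an element with a large invertible off-diagonal corner is clean,
provided the target corner absorbs the rest.
-/

namespace Pool.Agent.R215.AW

variable {R : Type*} [Ring R]

/-- `e ≅ e ⊕ c`: the corner `e` absorbs the idempotent `c`. -/
def Absorbs (e c : R) : Prop :=
  ∃ x1 x1' x2 x2' : R, e * x1 = x1 ∧ x1 * e = x1 ∧ e * x1' = x1' ∧ x1' * e = x1' ∧
    c * x2 = x2 ∧ x2 * e = x2 ∧ e * x2' = x2' ∧ x2' * c = x2' ∧
    x1 * x1' = e ∧ x2 * x2' = c ∧ x1 * x2' = 0 ∧ x2 * x1' = 0 ∧ x1' * x1 + x2' * x2 = e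

/-- `ν` in the corner `e` admits a one sided splitting. -/
def Splits (e ν : R) : Prop :=
  ∃ p l r : R, p * p = p ∧ e * p = p ∧ p * e = p ∧ p * l = l ∧ l * e = l ∧
    l * (ν - p) * p = p ∧ e * r = r ∧ r * (e - p) = r ∧ (e - p) * ν * r = e - p

theorem core_unit (e2 e3 p q D l r c m m' a a' x1 x1' x2 x2' : R)
    (h22 : e2 * e2 = e2) (h33 : e3 * e3 = e3) (h23 : e2 * e3 = 0) (h32 : e3 * e2 = 0)
    (hpq : p + q = e3) (hpp : p * p = p) (hqq : q * q = q) (hpq0 : p * q = 0) (hqp0 : q * p = 0)
    (hD1 : e3 * D = D) (hD2 : D * e3 = D)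
    (hl1 : p * l = l) (hl2 : l * e3 = l) (hlD : l * D * p = p)
    (hr1 : e3 * r = r) (hr2 : r * q = r) (hrD : q * D * r = q)
    (hc : c = e3 - D * l)
    (hm1 : e2 * m = m) (hm2 : m * e2 = m) (hm1' : e2 * m' = m') (hm2' : m' * e2 = m')
    (ha1 : e2 * a = a) (ha2 : a * q = a) (ha1' : q * a' = a') (ha2' : a' * e2 = a')
    (hmm : m' * m = e2) (haa : a' * a = q) (hma : m' * a = 0) (ham : a' * m = 0)
    (hsum : m * m' + a * a' = e2)
    (hx1 : e2 * x1 = x1) (hx1b : x1 * e2 = x1) (hx1' : e2 * x1' = x1') (hx1b' : x1' * e2 = x1')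
    (hx2 : c * x2 = x2) (hx2b : x2 * e2 = x2) (hx2' : e2 * x2' = x2') (hx2b' : x2' * c = x2')
    (hxx1 : x1 * x1' = e2) (hxx2 : x2 * x2' = c) (hx12 : x1 * x2' = 0) (hx21 : x2 * x1' = 0)
    (hxs : x1' * x1 + x2' * x2 = e2) :
    ∃ N Ni : R, (e2 + e3) * N = N ∧ N * (e2 + e3) = N ∧ (e2 + e3) * Ni = Ni ∧
      Ni * (e2 + e3) = Ni ∧ N * Ni = e2 + e3 ∧ Ni * N = e2 + e3 ∧
      q * N = q * D ∧ N * p = D * p := by
  -- auxiliary relations
  have e3p : e3 * p = p := by
    linear_combination (norm := noncomm_ring) -hpq * p + hpp + hqp0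
  have e3q : e3 * q = q := by
    linear_combination (norm := noncomm_ring) -hpq * q + hqq + hpq0
  have pe3 : p * e3 = p := by
    linear_combination (norm := noncomm_ring) -p * hpq + hpp + hpq0
  have qe3 : q * e3 = q := by
    linear_combination (norm := noncomm_ring) -q * hpq + hqq + hqp0
  have e3l : e3 * l = l := by
    linear_combination (norm := noncomm_ring) -e3 * hl1 + e3p * l + hl1
  have e3c : e3 * c = c := by
    rw [hc]; linear_combination (norm := noncomm_ring) h33 - hD1 * l
  have ce3 : c * e3 = c := by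
    rw [hc]; linear_combination (norm := noncomm_ring) h33 - D * hl2
  have e3x2 : e3 * x2 = x2 := by
    linear_combination (norm := noncomm_ring) -e3 * hx2 + e3c * x2 + hx2
  have e3a' : e3 * a' = a' := by
    linear_combination (norm := noncomm_ring) -e3 * ha1' + e3q * a' + ha1'
  have lDl : l * D * l = l := by
    linear_combination (norm := noncomm_ring) -l * D * hl1 + hlD * l + hl1
  have lc : l * c = 0 := by
    rw [hc]; linear_combination (norm := noncomm_ring) hl2 - lDl
  have cDp : c * D * p = 0 := by
    rw [hc]; linear_combination (norm := noncomm_ring) hD1 * p - D * hlD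
  have x2e3 : x2 * e3 = 0 := by
    linear_combination (norm := noncomm_ring) -hx2b * e3 + x2 * h23
  have x1e3 : x1 * e3 = 0 := by
    linear_combination (norm := noncomm_ring) -hx1b * e3 + x1 * h23
  have e3x1' : e3 * x1' = 0 := by
    linear_combination (norm := noncomm_ring) -e3 * hx1' + h32 * x1'
  have e3x2' : e3 * x2' = 0 := by
    linear_combination (norm := noncomm_ring) -e3 * hx2' + h32 * x2'
  have x2'e3 : x2' * e3 = x2' := by
    linear_combination (norm := noncomm_ring) -hx2b' * e3 + x2' * ce3 + hx2b'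
  have x1'e3 : x1' * e3 = 0 := by
    linear_combination (norm := noncomm_ring) -hx1b' * e3 + x1' * h23
  have al : a * l = 0 := by
    linear_combination (norm := noncomm_ring) -a * hl1 - ha2 * p * l + a * hqp0 * l
  have ae3 : a * e3 = a := by
    linear_combination (norm := noncomm_ring) -ha2 * e3 + a * qe3 + ha2
  have e3a : e3 * a = 0 := by
    linear_combination (norm := noncomm_ring) -e3 * ha1 + h32 * a
  have e3m : e3 * m = 0 := by
    linear_combination (norm := noncomm_ring) -e3 * hm1 + h32 * m
  have m'e3 : m' * e3 = 0 := by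
    linear_combination (norm := noncomm_ring) -hm2' * e3 + m' * h23
  have a'e3 : a' * e3 = 0 := by
    linear_combination (norm := noncomm_ring) -ha2' * e3 + a' * h23
  have e2D : e2 * D = 0 := by
    linear_combination (norm := noncomm_ring) -e2 * hD1 + h23 * D
  have e2x2 : e2 * x2 = 0 := by
    linear_combination (norm := noncomm_ring) -e2 * e3x2 + h23 * x2
  have De2 : D * e2 = 0 := by
    linear_combination (norm := noncomm_ring) -hD2 * e2 + D * h32
  have e2l : e2 * l = 0 := by
    linear_combination (norm := noncomm_ring) -e2 * e3l + h23 * l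
  have e2r : e2 * r = 0 := by
    linear_combination (norm := noncomm_ring) -e2 * hr1 + h23 * r
  have ap : a * p = 0 := by
    linear_combination (norm := noncomm_ring) -ha2 * p + a * hqp0
  have x2p : x2 * p = 0 := by
    linear_combination (norm := noncomm_ring) -x2 * e3p + x2e3 * p
  have x1p : x1 * p = 0 := by
    linear_combination (norm := noncomm_ring) -x1 * e3p + x1e3 * p
  -- names
  set V : R := e3 - D * a' with hV
  refine ⟨m * x1 + x2 + (a + D) * (e3 - r * x2),
    x1' * m' + (x2' + l + r * c) * V + a', ?_, ?_, ?_, ?_, ?_, ?_, ?_, ?_⟩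
  · linear_combination (norm := noncomm_ring) hm1 * x1 + e3m * x1 + e2x2 + e3x2 +
      (ha1 + e3a + e2D + hD1) * (e3 - r * x2)
  · linear_combination (norm := noncomm_ring) m * hx1b + m * x1e3 + hx2b + x2e3 +
      (a + D) * (h32 + h33 - r * hx2b - r * x2e3)
  · linear_combination (norm := noncomm_ring) (hx1' + e3x1') * m' +
      (hx2' + e3x2' + e2l + e3l + e2r * c + hr1 * c) * V + (e3a' - e2 * e3a' + h23 * a')
  · have hVe : V * (e2 + e3) = V := by
      rw [hV]; linear_combination (norm := noncomm_ring) h32 + h33 - D * ha2' - D * a'e3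
    linear_combination (norm := noncomm_ring) x1' * hm2' + x1' * m'e3 +
      (x2' + l + r * c) * hVe + ha2' + a'e3
  · -- N * Ni
    have e3V : e3 * V = V := by
      rw [hV]; linear_combination (norm := noncomm_ring) h33 - hD1 * a'
    have h1 : x2 * (x1' * m' + (x2' + l + r * c) * V + a') = c * V := by
      linear_combination (norm := noncomm_ring) hx21 * m' + hxx2 * V + (x2e3 * l - x2 * e3l) * V
        + (x2e3 * r - x2 * hr1) * c * V + x2e3 * a' - x2 * e3a'
    have h2 : x1 * (x1' * m' + (x2' + l + r * c) * V + a') = m' := by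
      linear_combination (norm := noncomm_ring) hxx1 * m' + hx12 * V + (x1e3 * l - x1 * e3l) * V
        + (x1e3 * r - x1 * hr1) * c * V + x1e3 * a' - x1 * e3a' + hm1'
    have h3 : e3 * (x1' * m' + (x2' + l + r * c) * V + a') = (l + r * c) * V + a' := by
      linear_combination (norm := noncomm_ring) e3x1' * m' + e3x2' * V + e3l * V + hr1 * c * V
        + e3a'
    have h4 : (m * x1 + x2 + (a + D) * (e3 - r * x2)) *
        (x1' * m' + (x2' + l + r * c) * V + a') = m * m' + c * V +
        (a + D) * (l * V + a') := by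
      linear_combination (norm := noncomm_ring) m * h2 + h1 + (a + D) * h3 - (a + D) * r * h1
    rw [h4]
    have h5 : D * l = e3 - c := by rw [hc]; abel
    linear_combination (norm := noncomm_ring) hsum + al * V + h5 * V + e3V + hV
  · -- Ni * N
    have g1 : a' * (m * x1 + x2 + (a + D) * (e3 - r * x2)) = q - q * r * x2 := by
      linear_combination (norm := noncomm_ring) ham * x1 + (a'e3 * x2 - a' * e3x2) +
        haa * (e3 - r * x2) + qe3 + (a'e3 * D - a' * hD1) * (e3 - r * x2)
    have g2 : e3 * (m * x1 + x2 + (a + D) * (e3 - r * x2)) = x2 + D * (e3 - r * x2) := by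
      linear_combination (norm := noncomm_ring) e3m * x1 + e3x2 + (e3a + hD1) * (e3 - r * x2)
    have g3 : V * (m * x1 + x2 + (a + D) * (e3 - r * x2)) = x2 + D * p - D * p * r * x2 := by
      rw [hV]
      linear_combination (norm := noncomm_ring) g2 - D * g1 - D * hpq + D * hpq * r * x2 +
        D * hr1 * x2 
    have g4 : c * (V * (m * x1 + x2 + (a + D) * (e3 - r * x2))) = x2 := by
      rw [g3]
      linear_combination (norm := noncomm_ring) hx2 + cDp - cDp * r * x2
    have g5 : m' * (m * x1 + x2 + (a + D) * (e3 - r * x2)) = x1 := by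
      linear_combination (norm := noncomm_ring) hmm * x1 + hx1 + (m'e3 * x2 - m' * e3x2) +
        hma * (e3 - r * x2) + (m'e3 * D - m' * hD1) * (e3 - r * x2)
    have g6 : l * (V * (m * x1 + x2 + (a + D) * (e3 - r * x2))) = p - p * r * x2 := by
      rw [g3]
      linear_combination (norm := noncomm_ring) lc * x2 - l * hx2 + hlD - hlD * r * x2
    have g7 : x2' * (V * (m * x1 + x2 + (a + D) * (e3 - r * x2))) = x2' * x2 := by
      linear_combination (norm := noncomm_ring)
        -hx2b' * (V * (m * x1 + x2 + (a + D) * (e3 - r * x2))) + x2' * g4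
    linear_combination (norm := noncomm_ring) x1' * g5 + g7 + g6 + r * g4 + g1 + hxs + hpq
      - hpq * r * x2 - hr1 * x2
  · -- q * N
    have qe2 : q * e2 = 0 := by
      linear_combination (norm := noncomm_ring) -qe3 * e2 + q * h32
    linear_combination (norm := noncomm_ring) (qe2 * m - q * hm1) * x1 +
      (qe2 * a - q * ha1) * (e3 - r * x2) + q * hD2 - hrD * x2
  · linear_combination (norm := noncomm_ring) m * x1p + x2p + ap + D * e3p + a * e3p 
      - (a + D) * r * x2p


/-- Normal form case: `T e1 = b` with `b : e1 → e2` invertible. -/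
theorem clean_normal (e1 e2 e3 T b b' : R)
    (h11 : e1 * e1 = e1) (h22 : e2 * e2 = e2) (h33 : e3 * e3 = e3)
    (h12 : e1 * e2 = 0) (h21 : e2 * e1 = 0) (h13 : e1 * e3 = 0) (h31 : e3 * e1 = 0)
    (h23 : e2 * e3 = 0) (h32 : e3 * e2 = 0) (hsum : e1 + e2 + e3 = 1)
    (hT : T * e1 = b) (hb1 : e2 * b = b) (hb2 : b * e1 = b)
    (hb1' : e1 * b' = b') (hb2' : b' * e2 = b') (hbb : b' * b = e1) (hbb' : b * b' = e2)
    (hs : Splits e3 (e3 * T * e3))
    (habs : ∀ c : R, c * c = c → e3 * c = c → c * e3 = c → Absorbs e2 c) :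
    ∃ P : R, P * P = P ∧ IsUnit (T - P) := by
  obtain ⟨p, l, r, hpp, hp1, hp2, hl1, hl2, hlD, hr1, hr2, hrD⟩ := hs
  set q : R := e3 - p with hq
  set D : R := e3 * T * e3 - p with hD
  set c : R := e3 - D * l with hc
  have hpq : p + q = e3 := by rw [hq]; abel
  have hqq : q * q = q := by
    rw [hq]; linear_combination (norm := noncomm_ring) h33 - hp1 - hp2 + hpp
  have hpq0 : p * q = 0 := by
    rw [hq]; linear_combination (norm := noncomm_ring) hp2 - hpp
  have hqp0 : q * p = 0 := by
    rw [hq]; linear_combination (norm := noncomm_ring) hp1 - hpp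
  have hD1 : e3 * D = D := by
    rw [hD]; linear_combination (norm := noncomm_ring) h33 * T * e3 - hp1
  have hD2 : D * e3 = D := by
    rw [hD]; linear_combination (norm := noncomm_ring) e3 * T * h33 - hp2
  have hlDp : l * D * p = p := hlD
  have hrDq : q * D * r = q := by
    have : q * D = q * (e3 * T * e3) := by
      rw [hD]; linear_combination (norm := noncomm_ring) -hqp0
    rw [this]; exact hrD
  have e3l : e3 * l = l := by
    linear_combination (norm := noncomm_ring) -e3 * hl1 + hp1 * l + hl1
  have lDl : l * D * l = l := by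
    linear_combination (norm := noncomm_ring) -l * D * hl1 + hlDp * l + hl1
  have hcc : c * c = c := by
    rw [hc]
    linear_combination (norm := noncomm_ring) h33 - hD1 * l - D * hl2 + D * lDl
  have e3c : e3 * c = c := by
    rw [hc]; linear_combination (norm := noncomm_ring) h33 - hD1 * l
  have ce3 : c * e3 = c := by
    rw [hc]; linear_combination (norm := noncomm_ring) h33 - D * hl2
  have e3q : e3 * q = q := by
    rw [hq]; linear_combination (norm := noncomm_ring) h33 - hp1
  have qe3 : q * e3 = q := by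
    rw [hq]; linear_combination (norm := noncomm_ring) h33 - hp2
  obtain ⟨m', m, a', a, hm1', hm2', hm1, hm2, ha1', ha2', ha1, ha2, hmm, haa, hma, ham, hms⟩ :=
    habs q hqq e3q qe3
  obtain ⟨x1, x1', x2, x2', hx1, hx1b, hx1', hx1b', hx2, hx2b, hx2', hx2b', hxx1, hxx2, hx12,
    hx21, hxs⟩ := habs c hcc e3c ce3
  obtain ⟨N', Ni', hN1, hN2, hNi1, hNi2, hNN, hNN', hqN, hNp⟩ :=
    core_unit e2 e3 p q D l r c m m' a a' x1 x1' x2 x2' h22 h33 h23 h32 hpq hpp hqq hpq0 hqp0
      hD1 hD2 hl1 hl2 hlDp hr1 hr2 hrDq hc hm1 hm2 hm1' hm2' ha1 ha2 ha1' ha2' hmm haa hma ham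
      hms hx1 hx1b hx1' hx1b' hx2 hx2b hx2' hx2b' hxx1 hxx2 hx12 hx21 hxs
  -- the true matrix on `e2 + e3`
  set G : R := (e2 * T * p + b * T * p) * l with hG
  set s : R := r * T * e2 with hs
  have e3r : e3 * r = r := hr1
  have e2G : e2 * G = G := by
    rw [hG]; linear_combination (norm := noncomm_ring) h22 * T * p * l + hb1 * T * p * l
  have Ge3 : G * e3 = G := by
    rw [hG]; linear_combination (norm := noncomm_ring) (e2 * T * p + b * T * p) * hl2
  have GG : G * G = 0 := by
    linear_combination (norm := noncomm_ring) -Ge3 * G - G * e3 * e2G + G * h32 * G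
      + G * Ge3 * 0 
  have e3s : e3 * s = s := by
    rw [hs]; linear_combination (norm := noncomm_ring) e3r * T * e2
  have se2 : s * e2 = s := by
    rw [hs]; linear_combination (norm := noncomm_ring) r * T * h22
  have ss : s * s = 0 := by
    linear_combination (norm := noncomm_ring) -se2 * s - s * e2 * e3s + s * h23 * s
  have Ge2 : G * e2 = 0 := by
    linear_combination (norm := noncomm_ring) -Ge3 * e2 + G * h32
  have e3G : e3 * G = 0 := by
    linear_combination (norm := noncomm_ring) -e3 * e2G + h32 * G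
  have se3 : s * e3 = 0 := by
    linear_combination (norm := noncomm_ring) -se2 * e3 + s * h23
  have e2s : e2 * s = 0 := by
    linear_combination (norm := noncomm_ring) -e2 * e3s + h23 * s
  set N : R := (1 + G) * N' * (1 + s) with hN
  set Ni : R := (1 - s) * Ni' * (1 - G) with hNi
  have hNNi : N * Ni = e2 + e3 := by
    rw [hN, hNi]
    linear_combination (norm := noncomm_ring)
      -(1 + G) * N' * ss * Ni' * (1 - G) + (1 + G) * hNN * (1 - G) + Ge2 + Ge3 - e2G - e3G
      - Ge2 * G - Ge3 * G - GG
  have hNiN : Ni * N = e2 + e3 := by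
    rw [hN, hNi]
    linear_combination (norm := noncomm_ring)
      -(1 - s) * Ni' * GG * N' * (1 + s) + (1 - s) * hNN' * (1 + s) - se2 - se3 + e2s + e3s
      - s * e2s - s * e3s - ss
  have eN : (e2 + e3) * N = N := by
    rw [hN]
    linear_combination (norm := noncomm_ring) hN1 * (1 + s) + (e2G + e3G) * N' * (1 + s)
  have Ne : N * (e2 + e3) = N := by
    rw [hN]
    linear_combination (norm := noncomm_ring) (1 + G) * hN2 + (1 + G) * N' * (se2 + se3)
  have eNi : (e2 + e3) * Ni = Ni := by
    rw [hNi]
    linear_combination (norm := noncomm_ring) hNi1 * (1 - G) - (e2s + e3s) * Ni' * (1 - G)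
  have qe2 : q * e2 = 0 := by
    linear_combination (norm := noncomm_ring) -qe3 * e2 + q * h32
  have qG : q * G = 0 := by
    linear_combination (norm := noncomm_ring) -q * e2G + qe2 * G
  have sp : s * p = 0 := by
    linear_combination (norm := noncomm_ring) -s * hp1 + se3 * p
  -- the row of `q`
  have hqNt : q * N = q * T * (e2 + e3) := by
    have h1 : q * N = q * D * (1 + s) := by
      rw [hN]
      linear_combination (norm := noncomm_ring) qG * N' * (1 + s) + hqN * (1 + s)
    have h2 : q * D = q * T * e3 := by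
      rw [hD]; linear_combination (norm := noncomm_ring) qe3 * T * e3 - hqp0
    have h3 : q * D * s = q * T * e2 := by
      rw [hs]
      linear_combination (norm := noncomm_ring) hrDq * T * e2
    linear_combination (norm := noncomm_ring) h1 + h2 + h3
  -- the column of `p`
  have hNpt : N * p = (e2 + e3) * T * p + b * T * p - p := by
    have h1 : N * p = (1 + G) * (D * p) := by
      rw [hN]
      linear_combination (norm := noncomm_ring) (1 + G) * N' * sp + (1 + G) * hNp
    have h2 : D * p = e3 * T * p - p := by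
      rw [hD]; linear_combination (norm := noncomm_ring) e3 * T * hp1 - hpp
    have h3 : G * (D * p) = e2 * T * p + b * T * p := by
      rw [hG]
      linear_combination (norm := noncomm_ring) (e2 * T * p + b * T * p) * hlDp + e2 * T * hpp
        + b * T * hpp
    linear_combination (norm := noncomm_ring) h1 + h2 + h3
  have be2 : b * e2 = 0 := by
    linear_combination (norm := noncomm_ring) -hb2 * e2 + b * h12
  have be3 : b * e3 = 0 := by
    linear_combination (norm := noncomm_ring) -hb2 * e3 + b * h13
  have bN : b * N = 0 := by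
    linear_combination (norm := noncomm_ring) -b * eN + (be2 + be3) * N
  have bb : b * b = 0 := by
    linear_combination (norm := noncomm_ring) -b * hb1 + be2 * b
  have Ne1 : N * e1 = 0 := by
    linear_combination (norm := noncomm_ring) -Ne * e1 + N * (h21 + h31)
  set Y : R := b' * N - b' * T * (e2 + e3) with hY
  have Ye1 : Y * e1 = 0 := by
    rw [hY]; linear_combination (norm := noncomm_ring) b' * Ne1 - b' * T * (h21 + h31)
  have Ye : Y * (e2 + e3) = Y := by
    rw [hY]
    linear_combination (norm := noncomm_ring) b' * Ne - b' * T * (h22 + h23 + h32 + h33)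
  have e1Y : e1 * Y = Y := by
    rw [hY]; linear_combination (norm := noncomm_ring) hb1' * N - hb1' * T * (e2 + e3)
  have e2Y : e2 * Y = 0 := by
    linear_combination (norm := noncomm_ring) -e2 * e1Y + h21 * Y
  have e3Y : e3 * Y = 0 := by
    linear_combination (norm := noncomm_ring) -e3 * e1Y + h31 * Y
  have bY : b * Y = e2 * N - e2 * T * (e2 + e3) := by
    rw [hY]; linear_combination (norm := noncomm_ring) hbb' * N - hbb' * T * (e2 + e3)
  have e1N : e1 * N = 0 := by
    linear_combination (norm := noncomm_ring) -e1 * eN + (h12 + h13) * N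
  have e1Ni : e1 * Ni = 0 := by
    linear_combination (norm := noncomm_ring) -e1 * eNi + (h12 + h13) * Ni
  have b'e1 : b' * e1 = 0 := by
    linear_combination (norm := noncomm_ring) -hb2' * e1 + b' * h21
  set M : R := (1 - b) * (-e1 + Y + N) with hM
  set P : R := T - M with hP
  have hTsum : T = b + T * (e2 + e3) := by
    linear_combination (norm := noncomm_ring) -T * hsum + hT
  have hP1 : P * e1 = e1 := by
    rw [hP, hM]
    linear_combination (norm := noncomm_ring) hT + (1 - b) * h11 - (1 - b) * Ye1 -
      (1 - b) * Ne1 - hb2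
  have hYp : Y * p = e1 * T * p := by
    rw [hY]
    have h1 : b' * (e2 + e3) = b' := by
      have : b' * e3 = 0 := by
        linear_combination (norm := noncomm_ring) -hb2' * e3 + b' * h23
      linear_combination (norm := noncomm_ring) hb2' + this
    have h2 : b' * p = 0 := by
      linear_combination (norm := noncomm_ring) -hb2' * p - b' * e2 * hp1 + b' * h23 * p
    have h3 : (e2 + e3) * p = p := by
      linear_combination (norm := noncomm_ring) -e2 * hp1 + h23 * p + hp1
    linear_combination (norm := noncomm_ring) b' * hNpt + h1 * T * p + hbb * T * p - h2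
      - b' * T * h3
  have hP2 : P * p = p := by
    rw [hP, hM]
    have e1p : e1 * p = 0 := by
      linear_combination (norm := noncomm_ring) -e1 * hp1 + h13 * p
    have bNp : b * (N * p) = 0 := by
      linear_combination (norm := noncomm_ring) bN * p
    have hTp : T * p = e1 * T * p + (e2 + e3) * T * p := by
      linear_combination (norm := noncomm_ring) -hsum * T * p
    linear_combination (norm := noncomm_ring) (1 - b) * e1p - (1 - b) * hYp - hNpt + bNp + hTp
      + hb2 * T * p
  have hP3 : e2 * P = 0 := by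
    rw [hP, hM]
    have e2b : e2 * b = b := hb1
    linear_combination (norm := noncomm_ring) e2 * hTsum + e2b + h21 - e2b * e1 - hb2 - e2Y
      + e2b * Y + bY + e2b * N + bN
  have qb : q * b = 0 := by
    linear_combination (norm := noncomm_ring) -q * hb1 + qe2 * b
  have hP4 : q * P = 0 := by
    rw [hP, hM]
    have qe1 : q * e1 = 0 := by
      linear_combination (norm := noncomm_ring) -qe3 * e1 + q * h31
    have qY : q * Y = 0 := by
      linear_combination (norm := noncomm_ring) -q * e1Y + qe1 * Y
    linear_combination (norm := noncomm_ring) q * hTsum + qb + qe1 - qb * e1 - qY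
      + qb * Y + qb * N - hqNt
  have hPi : (e1 + p) * P = P := by
    linear_combination (norm := noncomm_ring) hsum * P - hP3 - hP4 + hpq * P
  refine ⟨P, ?_, ?_⟩
  · linear_combination (norm := noncomm_ring) -P * hPi + hP1 * P + hP2 * P + hPi
  · have hTP : T - P = M := by rw [hP]; abel
    rw [hTP]
    have hA : (-e1 + Y + N) * (-e1 + Y * Ni + Ni) = 1 := by
      have e1YN : Y * Y = 0 := by
        linear_combination (norm := noncomm_ring) -Y * e1Y + Ye1 * Y
      have NY : N * Y = 0 := by
        linear_combination (norm := noncomm_ring) -N * e1Y + Ne1 * Y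
      linear_combination (norm := noncomm_ring) h11 - e1Y * Ni - e1Ni - Ye1 + e1YN * Ni - Ne1
        + NY * Ni + hNNi + hsum
    have hB : (-e1 + Y * Ni + Ni) * (-e1 + Y + N) = 1 := by
      have Nie1 : Ni * e1 = 0 := by
        have : Ni * (e2 + e3) = Ni := by
          rw [hNi]
          linear_combination (norm := noncomm_ring) (1 - s) * hNi2 - (1 - s) * Ni' * (Ge2 + Ge3)
        linear_combination (norm := noncomm_ring) -this * e1 + Ni * (h21 + h31)
      have NiY : Ni * Y = 0 := by
        linear_combination (norm := noncomm_ring) -Ni * e1Y + Nie1 * Y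
      linear_combination (norm := noncomm_ring) h11 - e1Y - e1N - Y * Nie1 - Nie1 + Y * NiY
        + NiY + Y * hNiN + Ye + hNiN + hsum
    have hu1 : (1 - b) * (1 + b) = 1 := by
      linear_combination (norm := noncomm_ring) -bb
    have hu2 : (1 + b) * (1 - b) = 1 := by
      linear_combination (norm := noncomm_ring) -bb
    refine ⟨⟨M, (-e1 + Y * Ni + Ni) * (1 + b), ?_, ?_⟩, rfl⟩
    · rw [hM]
      linear_combination (norm := noncomm_ring) (1 - b) * hA * (1 + b) + hu1
    · rw [hM]
      linear_combination (norm := noncomm_ring)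
        (-e1 + Y * Ni + Ni) * hu2 * (-e1 + Y + N) + hB

/-- General case: the corner `e2 T e1` is invertible. -/
theorem clean_of_offdiag (e1 e2 e3 T b' : R)
    (h11 : e1 * e1 = e1) (h22 : e2 * e2 = e2) (h33 : e3 * e3 = e3)
    (h12 : e1 * e2 = 0) (h21 : e2 * e1 = 0) (h13 : e1 * e3 = 0) (h31 : e3 * e1 = 0)
    (h23 : e2 * e3 = 0) (h32 : e3 * e2 = 0) (hsum : e1 + e2 + e3 = 1)
    (hb1' : e1 * b' = b') (hb2' : b' * e2 = b') (hbb : b' * (e2 * T * e1) = e1)
    (hbb' : (e2 * T * e1) * b' = e2)
    (hs : ∀ ν : R, e3 * ν = ν → ν * e3 = ν → Splits e3 ν)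
    (habs : ∀ c : R, c * c = c → e3 * c = c → c * e3 = c → Absorbs e2 c) :
    ∃ P : R, P * P = P ∧ IsUnit (T - P) := by
  set n : R := T * b' - e2 with hn
  have hTb : e2 * (T * b') = e2 := by
    linear_combination (norm := noncomm_ring) -e2 * T * hb1' + hbb'
  have hbT : b' * T * e1 = e1 := by
    linear_combination (norm := noncomm_ring) -hb2' * T * e1 + hbb
  have nn : n * n = 0 := by
    rw [hn]
    linear_combination (norm := noncomm_ring) h22 - hTb + T * b' * hTb
      - T * hb2' * T * b'
  have ne1 : n * e1 = 0 := by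
    rw [hn]
    linear_combination (norm := noncomm_ring) -T * hb2' * e1 + T * b' * h21 - h21
  have hu1 : (1 - n) * (1 + n) = 1 := by
    linear_combination (norm := noncomm_ring) -nn
  have hu2 : (1 + n) * (1 - n) = 1 := by
    linear_combination (norm := noncomm_ring) -nn
  have hTe : (1 - n) * T * (1 + n) * e1 = e2 * T * e1 := by
    have h1 : n * (T * e1) = T * e1 - e2 * T * e1 := by
      rw [hn]
      linear_combination (norm := noncomm_ring) T * hbT
    linear_combination (norm := noncomm_ring) (1 - n) * T * ne1 - h1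
  obtain ⟨P, hPP, hPu⟩ := clean_normal e1 e2 e3 ((1 - n) * T * (1 + n)) (e2 * T * e1) b'
    h11 h22 h33 h12 h21 h13 h31 h23 h32 hsum hTe
    (by linear_combination (norm := noncomm_ring) h22 * T * e1)
    (by linear_combination (norm := noncomm_ring) e2 * T * h11)
    hb1' hb2' hbb hbb'
    (hs _ (by linear_combination (norm := noncomm_ring) h33 * ((1 - n) * T * (1 + n)) * e3)
      (by linear_combination (norm := noncomm_ring) e3 * ((1 - n) * T * (1 + n)) * h33)) habs
  refine ⟨(1 + n) * P * (1 - n), ?_, ?_⟩
  · linear_combination (norm := noncomm_ring) (1 + n) * P * hu1 * P * (1 - n)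
      + (1 + n) * hPP * (1 - n)
  · have h3 : T - (1 + n) * P * (1 - n) = (1 + n) * ((1 - n) * T * (1 + n) - P) * (1 - n) := by
      linear_combination (norm := noncomm_ring) -hu2 * T * ((1 + n) * (1 - n)) - T * hu2
    rw [h3]
    have hU1 : IsUnit (1 + n) := ⟨⟨1 + n, 1 - n, hu2, hu1⟩, rfl⟩
    have hU2 : IsUnit (1 - n) := ⟨⟨1 - n, 1 + n, hu1, hu2⟩, rfl⟩
    exact (hU1.mul hPu).mul hU2

end Pool.Agent.R215.AW
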