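import Pool.Agent.R456.CL.Stm
import Pool.Agent.R215.AW.RingLemma

/-!
# Project CL (MP_3fc7b1_an): case (A) of the dichotomy
-/

set_option autoImplicit false
set_option linter.unusedVariables false

namespace Pool.Agent.R215.AW

open Pool.Agent.R456.CL

universe u

/-- Corner version of the ring lemma. -/
theorem clean_corner {A : Type*} [Ring A] (g e1 e2 e3 T b' : A) (hg : g * g = g)
    (h11 : e1 * e1 = e1) (h22 : e2 * e2 = e2) (h33 : e3 * e3 = e3)
    (h12 : e1 * e2 = 0) (h21 : e2 * e1 = 0) (h13 : e1 * e3 = 0) (h31 : e3 * e1 = 0)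
    (h23 : e2 * e3 = 0) (h32 : e3 * e2 = 0) (hsum : e1 + e2 + e3 = g)
    (hgT : g * T = T) (hTg : T * g = T)
    (hb1' : e1 * b' = b') (hb2' : b' * e2 = b') (hbb : b' * (e2 * T * e1) = e1)
    (hbb' : (e2 * T * e1) * b' = e2)
    (hs : ∀ ν : A, e3 * ν = ν → ν * e3 = ν → Splits e3 ν)
    (habs : ∀ c : A, c * c = c → e3 * c = c → c * e3 = c → Absorbs e2 c) :
    ∃ P W : A, g * P = P ∧ P * g = P ∧ P * P = P ∧ g * W = W ∧ W * g = W ∧
      W * (T - P) = g ∧ (T - P) * W = g := by
  have idem : IsIdempotentElem g := hg
  have ge1 : g * e1 = e1 := by rw [← hsum]; linear_combination (norm := noncomm_ring) h11 + h21 + h31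
  have e1g : e1 * g = e1 := by rw [← hsum]; linear_combination (norm := noncomm_ring) h11 + h12 + h13
  have ge2 : g * e2 = e2 := by rw [← hsum]; linear_combination (norm := noncomm_ring) h12 + h22 + h32
  have e2g : e2 * g = e2 := by rw [← hsum]; linear_combination (norm := noncomm_ring) h21 + h22 + h23
  have ge3 : g * e3 = e3 := by rw [← hsum]; linear_combination (norm := noncomm_ring) h13 + h23 + h33
  have e3g : e3 * g = e3 := by rw [← hsum]; linear_combination (norm := noncomm_ring) h31 + h32 + h33
  have key : ∀ x y z : A, g * x = x → y * g = y → z = x → z = y → g * z = z ∧ z * g = z := by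
    rintro x y z h1 h2 rfl rfl; exact ⟨h1, h2⟩
  let mk : ∀ x : A, g * x = x → x * g = x → idem.Corner :=
    fun x h1 h2 => ⟨x, (Subsemigroup.mem_corner_iff idem).mpr ⟨h1, h2⟩⟩
  have hmem : ∀ x : idem.Corner, g * x.1 = x.1 ∧ x.1 * g = x.1 :=
    fun x => (Subsemigroup.mem_corner_iff idem).mp x.2
  have hb'g : b' * g = b' := by linear_combination (norm := noncomm_ring) -hb2' * g + b' * e2g + hb2'
  have hgb' : g * b' = b' := by linear_combination (norm := noncomm_ring) -g * hb1' + ge1 * b' + hb1'
  -- side: elements between e3 corners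
  have side1 : ∀ x : A, e3 * x = x → g * x = x := fun x h => by
    linear_combination (norm := noncomm_ring) -g * h + ge3 * x + h
  have side2 : ∀ x : A, x * e3 = x → x * g = x := fun x h => by
    linear_combination (norm := noncomm_ring) -h * g + x * e3g + h
  have side3 : ∀ x : A, e2 * x = x → g * x = x := fun x h => by
    linear_combination (norm := noncomm_ring) -g * h + ge2 * x + h
  have side4 : ∀ x : A, x * e2 = x → x * g = x := fun x h => by
    linear_combination (norm := noncomm_ring) -h * g + x * e2g + h
  have main := clean_of_offdiag (R := idem.Corner) (mk e1 ge1 e1g) (mk e2 ge2 e2g)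
    (mk e3 ge3 e3g) (mk T hgT hTg) (mk b' hgb' hb'g)
    (Subtype.ext h11) (Subtype.ext h22) (Subtype.ext h33) (Subtype.ext h12) (Subtype.ext h21)
    (Subtype.ext h13) (Subtype.ext h31) (Subtype.ext h23) (Subtype.ext h32)
    (Subtype.ext hsum) (Subtype.ext hb1') (Subtype.ext hb2') (Subtype.ext hbb)
    (Subtype.ext hbb') ?_ ?_
  · obtain ⟨P, hP, hu⟩ := main
    obtain ⟨u, hu⟩ := hu
    refine ⟨P.1, (u⁻¹ : (idem.Corner)ˣ).1.1, (hmem P).1, (hmem P).2, congrArg Subtype.val hP,
      (hmem _).1, (hmem _).2, ?_, ?_⟩
    · have := congrArg Subtype.val u.inv_mul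
      rw [hu] at this
      exact this
    · have := congrArg Subtype.val u.mul_inv
      rw [hu] at this
      exact this
  · intro ν hν1 hν2
    obtain ⟨p, l, r, h1, h2, h3, h4, h5, h6, h7, h8, h9⟩ :=
      hs ν.1 (congrArg Subtype.val hν1) (congrArg Subtype.val hν2)
    have hp3 : e3 * l = l := by
      linear_combination (norm := noncomm_ring) -e3 * h4 + h2 * l + h4
    have hr3 : r * e3 = r := by
      linear_combination (norm := noncomm_ring) -h8 * e3 + r * h33 - r * h3 + h8
    exact ⟨mk p (side1 _ h2) (side2 _ h3), mk l (side1 _ hp3) (side2 _ h5),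
      mk r (side1 _ h7) (side2 _ hr3), Subtype.ext h1, Subtype.ext h2, Subtype.ext h3,
      Subtype.ext h4, Subtype.ext h5, Subtype.ext h6, Subtype.ext h7, Subtype.ext h8,
      Subtype.ext h9⟩
  · intro c hc1 hc2 hc3
    obtain ⟨x1, x1', x2, x2', h1, h2, h3, h4, h5, h6, h7, h8, h9, h10, h11', h12', h13'⟩ :=
      habs c.1 (congrArg Subtype.val hc1) (congrArg Subtype.val hc2) (congrArg Subtype.val hc3)
    have hx2 : g * x2 = x2 := by
      linear_combination (norm := noncomm_ring) -g * h5 + (hmem c).1 * x2 + h5
    have hx2' : x2' * g = x2' := by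
      linear_combination (norm := noncomm_ring) -h8 * g + x2' * (hmem c).2 + h8
    exact ⟨mk x1 (side3 _ h1) (side4 _ h2), mk x1' (side3 _ h3) (side4 _ h4),
      mk x2 hx2 (side4 _ h6), mk x2' (side3 _ h7) hx2', Subtype.ext h1, Subtype.ext h2,
      Subtype.ext h3, Subtype.ext h4, Subtype.ext h5, Subtype.ext h6, Subtype.ext h7,
      Subtype.ext h8, Subtype.ext h9, Subtype.ext h10, Subtype.ext h11', Subtype.ext h12',
      Subtype.ext h13'⟩

variable {A : Type u} [CStarAlgebra A]

theorem isUnit_one_add (b : A) : IsUnit (1 + star b * b) := by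
  have h : (-1 : ℝ) ∉ spectrum ℝ (star b * b) := fun h => by
    have := spectrum_star_mul_self_nonneg _ h
    linarith
  rw [spectrum.notMem_iff] at h
  have e : algebraMap ℝ A (-1) - star b * b = -(1 + star b * b) := by
    rw [map_neg, map_one]; abel
  rw [e] at h
  exact (IsUnit.neg_iff _).mp h

/-- Range projection of an idempotent (Kaplansky). -/
theorem exists_range_proj (c : A) (hc : c * c = c) :
    ∃ c0 : A, IsStarProjection c0 ∧ c0 * c = c ∧ c * c0 = c0 := by
  have hcs : star c * star c = star c := by rw [← star_mul, hc]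
  obtain ⟨z, hz⟩ := isUnit_one_add (star c - c)
  have hz' : (z : A) = 1 + (c - star c) * (star c - c) := by
    rw [hz, star_sub, star_star]
  have hzc : (z : A) * c = c * star c * c := by
    rw [hz']
    linear_combination (norm := noncomm_ring) -hc - hc * c - hcs * c + star c * hc
  have hcz : c * (z : A) = c * star c * c := by
    rw [hz']
    linear_combination (norm := noncomm_ring) -hc - c * hc + hc * star c - c * hcs
  have hzs : star (z : A) = z := by
    rw [hz', star_add, star_mul, star_one, star_sub, star_sub, star_star]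
  have hsz : star c * (z : A) = z * star c := by
    have := congrArg star (hzc.trans hcz.symm)
    rw [star_mul, star_mul, hzs] at this
    exact this
  set y : A := ((z⁻¹ : Aˣ) : A) with hy
  have hyz : y * z = 1 := z.inv_mul
  have hzy : (z : A) * y = 1 := z.mul_inv
  have hyc : y * c = c * y := by
    linear_combination (norm := noncomm_ring) -y * c * hzy + y * (hcz.trans hzc.symm) * y
      + hyz * c * y
  have hys : star y = y := by
    have h1 : star y * z = 1 := by
      have := congrArg star hzy
      rw [star_mul, hzs, star_one] at this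
      exact this
    linear_combination (norm := noncomm_ring) -star y * hzy + h1 * y
  have hysc : y * star c = star c * y := by
    have := congrArg star hyc
    rw [star_mul, star_mul, hys] at this
    exact this.symm
  have hA : c * star c * y = y * (c * star c) := by
    linear_combination (norm := noncomm_ring) -hyc * star c - c * hysc
  refine ⟨c * star c * y, ⟨?_, ?_⟩, ?_, ?_⟩
  · show c * star c * y * (c * star c * y) = c * star c * y
    have h2 : c * star c * c = c * z := hcz.symm
    linear_combination (norm := noncomm_ring) c * star c * (hyc * star c * y)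
      + c * star c * c * hysc * y + h2 * star c * (y * y) + c * (-hsz) * (y * y)
      + c * star c * hzy * y
  · rw [IsSelfAdjoint, star_mul, star_mul, star_star, hys, hA]
  · linear_combination (norm := noncomm_ring) c * star c * hyc - hcz * y + c * hzy
  · linear_combination (norm := noncomm_ring) hc * star c * y

theorem mul_of_star_mul {v p : A} (h : star v * v = p) (hp : IsStarProjection p) : v * p = v := by
  have hpp : p * p = p := hp.1
  have hps : star p = p := hp.2
  have h0 : star (v - v * p) * (v - v * p) = 0 := by
    rw [star_sub, star_mul, hps]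
    linear_combination (norm := noncomm_ring) h - h * p - p * h + p * h * p - hpp + hpp * p
  have := CStarRing.star_mul_self_eq_zero_iff (v - v * p) |>.mp h0
  exact (sub_eq_zero.mp this).symm

theorem splits_ok (hcut : PCut A) (e3 ν : A) (he : IsStarProjection e3) (h1 : e3 * ν = ν)
    (h2 : ν * e3 = ν) : Splits e3 ν := by
  obtain ⟨k, s, hk, hks, hsk, hss, hcomm, h4, h5, h6, hn⟩ := hcut (star ν) (1 / 2) (by norm_num)
  rw [star_star] at hcomm h4 h5 h6
  have hee : e3 * e3 = e3 := he.1
  have hes : star e3 = e3 := he.2
  have hkk : k * k = k := hk.1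
  have hkst : star k = k := hk.2
  have e3k : e3 * k = k := by
    linear_combination (norm := noncomm_ring) -e3 * h5 + h1 * star ν * s * s + h5
  have ke3 : k * e3 = k := by
    have := congrArg star e3k
    rw [star_mul, hes, hkst] at this
    exact this
  set p : A := e3 - k with hp
  have hpp : p * p = p := by
    rw [hp]; linear_combination (norm := noncomm_ring) hee - e3k - ke3 + hkk
  have e3p : e3 * p = p := by
    rw [hp]; linear_combination (norm := noncomm_ring) hee - e3k
  have pe3 : p * e3 = p := by
    rw [hp]; linear_combination (norm := noncomm_ring) hee - ke3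
  have hpstar : star p = p := by rw [hp, star_sub, hes, hkst]
  have hpν : ‖p * ν‖ ≤ 1 / 2 := by
    have e : p * ν = (1 - k) * ν := by
      rw [hp]; linear_combination (norm := noncomm_ring) h1
    have e2 : star (star ν * (1 - k)) = (1 - k) * ν := by
      rw [star_mul, star_star, star_sub, star_one, hkst]
    rw [e, ← e2, norm_star]
    exact hn
  have hpn : ‖p‖ ≤ 1 := by
    have h7 : ‖p‖ * ‖p‖ = ‖p‖ := by
      have := CStarRing.norm_star_mul_self (x := p)
      rw [hpstar, hpp] at this
      exact this.symm
    by_contra hcon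
    push Not at hcon
    nlinarith [norm_nonneg p]
  have hpνp : ‖p * ν * p‖ < 1 := by
    calc ‖p * ν * p‖ ≤ ‖p * ν‖ * ‖p‖ := norm_mul_le _ _
      _ ≤ 1 / 2 * 1 := mul_le_mul hpν hpn (norm_nonneg _) (by norm_num)
      _ < 1 := by norm_num
  obtain ⟨U, hU⟩ := isUnit_one_sub_of_norm_lt_one hpνp
  have hUi : ((U⁻¹ : Aˣ) : A) * (1 - p * ν * p) = 1 := by rw [← hU]; exact U.inv_mul
  set Ui : A := ((U⁻¹ : Aˣ) : A) with hUi'
  have e3ν : e3 * star ν = star ν := by
    have := congrArg star h2
    rw [star_mul, hes] at this
    exact this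
  have hkp : e3 - p = k := by rw [hp]; abel
  refine ⟨p, -(p * Ui * p), star ν * (s * s), hpp, e3p, pe3, ?_, ?_, ?_, ?_, ?_, ?_⟩
  · linear_combination (norm := noncomm_ring) -hpp * Ui * p
  · linear_combination (norm := noncomm_ring) -p * Ui * pe3
  · linear_combination (norm := noncomm_ring) p * hUi * p + p * Ui * p * ν * hpp
      + p * Ui * hpp * p + p * Ui * hpp + hpp
  · linear_combination (norm := noncomm_ring) e3ν * s * s
  · rw [hkp]
    linear_combination (norm := noncomm_ring) star ν * s * hsk
  · rw [hkp]
    linear_combination (norm := noncomm_ring) k * h5 + hkk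

theorem absorbs_ok (hinf : PInf A) (hsb : PSB A) (g f c : A) (hg : IsStarProjection g)
    (hf : IsStarProjection f) (hgi : Infin g) (hgf : Eqv g f) (hc : c * c = c)
    (hgc : g * c = c) (hcg : c * g = c) : Absorbs f c := by
  obtain ⟨c0, hc0, hc0c, hcc0⟩ := exists_range_proj c hc
  obtain ⟨g1, g2, hg1, hg2, h12, hl1, hl2, ⟨v1, hv1, hv1'⟩, ⟨v2, hv2, hv2'⟩⟩ := hinf g hg hgi
  obtain ⟨w, hw, hw'⟩ := hgf
  have hc0s : star c0 = c0 := hc0.2
  have hc00 : c0 * c0 = c0 := hc0.1
  have hgs : star g = g := hg.2
  have hgg : g * g = g := hg.1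
  have hff : f * f = f := hf.1
  have hfs : star f = f := hf.2
  have gc0 : g * c0 = c0 := by
    linear_combination (norm := noncomm_ring) -g * hcc0 + hgc * c0 + hcc0
  have hv1g : v1 * g = v1 := mul_of_star_mul hv1 hg
  have hv2g : v2 * g = v2 := mul_of_star_mul hv2 hg
  have hwg : w * g = w := mul_of_star_mul hw hg
  have hfw : f * w = w := by
    linear_combination (norm := noncomm_ring) -hw' * w + w * hw + hwg
  have gg1 : g * g1 = g1 := by
    have := congrArg star (show g1 * g = g1 from hl1)
    rw [star_mul, hgs, hg1.2.star_eq] at this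
    exact this
  have gg2 : g * g2 = g2 := by
    have := congrArg star (show g2 * g = g2 from hl2)
    rw [star_mul, hgs, hg2.2.star_eq] at this
    exact this
  have hg1v : g1 * v1 = v1 := by
    linear_combination (norm := noncomm_ring) -hv1' * v1 + v1 * hv1 + hv1g
  have hg2v : g2 * v2 = v2 := by
    linear_combination (norm := noncomm_ring) -hv2' * v2 + v2 * hv2 + hv2g
  have gv1 : g * v1 = v1 := by
    linear_combination (norm := noncomm_ring) -g * hg1v + gg1 * v1 + hg1v
  have gv2 : g * v2 = v2 := by
    linear_combination (norm := noncomm_ring) -g * hg2v + gg2 * v2 + hg2v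
  have v12 : star v1 * v2 = 0 := by
    have h1 : star v1 * g1 = star v1 := by
      have := congrArg star hg1v
      rw [star_mul, hg1.2.star_eq] at this
      exact this
    linear_combination (norm := noncomm_ring) -h1 * v2 - star v1 * g1 * hg2v
      + star v1 * h12 * v2
  set j1 : A := w * v1 * star w with hj1
  set j2 : A := w * v2 * c0 with hj2
  have sj1 : star j1 = w * star v1 * star w := by
    rw [hj1, star_mul, star_mul, star_star]; noncomm_ring
  have sj2 : star j2 = c0 * star v2 * star w := by
    rw [hj2, star_mul, star_mul, hc0s]; noncomm_ring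
  have j11 : star j1 * j1 = f := by
    rw [sj1, hj1]
    linear_combination (norm := noncomm_ring) w * star v1 * hw * v1 * star w
      + w * star v1 * gv1 * star w + w * hv1 * star w + hwg * star w + hw'
  have j12 : star j1 * j2 = 0 := by
    rw [sj1, hj2]
    linear_combination (norm := noncomm_ring) w * star v1 * hw * v2 * c0
      + w * star v1 * gv2 * c0 + w * v12 * c0
  have j21 : star j2 * j1 = 0 := by
    have := congrArg star j12
    rw [star_mul, star_star, star_zero] at this
    exact this
  have j22 : star j2 * j2 = c0 := by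
    rw [sj2, hj2]
    linear_combination (norm := noncomm_ring) c0 * star v2 * hw * v2 * c0
      + c0 * star v2 * gv2 * c0 + c0 * hv2 * c0 + c0 * gc0 + hc00
  have fj1 : f * j1 = j1 := by
    rw [hj1]; linear_combination (norm := noncomm_ring) hfw * v1 * star w
  have fj2 : f * j2 = j2 := by
    rw [hj2]; linear_combination (norm := noncomm_ring) hfw * v2 * c0
  have swf : star w * f = star w := by
    have := congrArg star hfw
    rw [star_mul, hfs] at this
    exact this
  have j1f : j1 * f = j1 := by
    rw [hj1]; linear_combination (norm := noncomm_ring) w * v1 * swf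
  have fsj1 : f * star j1 = star j1 := by
    have := congrArg star j1f
    rw [star_mul, hfs] at this
    exact this
  have sj1f : star j1 * f = star j1 := by
    have := congrArg star fj1
    rw [star_mul, hfs] at this
    exact this
  have sj2f : star j2 * f = star j2 := by
    have := congrArg star fj2
    rw [star_mul, hfs] at this
    exact this
  have j2c0 : j2 * c0 = j2 := by
    rw [hj2]; linear_combination (norm := noncomm_ring) w * v2 * hc00
  have csj2 : c * star j2 = star j2 := by
    rw [sj2]; linear_combination (norm := noncomm_ring) hcc0 * star v2 * star w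
  clear_value j1 j2
  set F : A := j1 * star j1 + j2 * star j2 with hF
  have hFs : star F = F := by
    rw [hF, star_add, star_mul, star_mul, star_star, star_star]
  have Fj1 : F * j1 = j1 := by
    rw [hF]; linear_combination (norm := noncomm_ring) j1 * j11 + j2 * j21 + j1f
  have Fj2 : F * j2 = j2 := by
    rw [hF]; linear_combination (norm := noncomm_ring) j1 * j12 + j2 * j22 + j2c0
  have hFF : F * F = F := by
    linear_combination (norm := noncomm_ring) F * hF + Fj1 * star j1 + Fj2 * star j2 - hF
  have hFP : IsStarProjection F := ⟨hFF, hFs⟩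
  have hFf : F * f = F := by
    rw [hF]; linear_combination (norm := noncomm_ring) j1 * sj1f + j2 * sj2f
  have sub1 : Sub f F := by
    refine ⟨j1, j11, ?_⟩
    rw [hF]
    linear_combination (norm := noncomm_ring) j1 * j11 * star j1 + j1 * j12 * star j2
      + j1f * star j1
  have sub2 : Sub F f := by
    refine ⟨F, ?_, ?_⟩
    · rw [hFs, hFF]
    · rw [hFs, hFF, hFf]
  obtain ⟨u, hu, hu'⟩ := hsb f F hf hFP sub1 sub2
  have huf : u * f = u := mul_of_star_mul hu hf
  have hfu : f * star u = star u := by
    have := congrArg star huf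
    rw [star_mul, hfs] at this
    exact this
  have hFu : F * u = u := by
    linear_combination (norm := noncomm_ring) -hu' * u + u * hu + huf
  refine ⟨star j1 * u, star u * j1, star j2 * u, star u * j2 * c, ?_, ?_, ?_, ?_, ?_, ?_, ?_, ?_,
    ?_, ?_, ?_, ?_, ?_⟩
  · linear_combination (norm := noncomm_ring) fsj1 * u
  · linear_combination (norm := noncomm_ring) star j1 * huf
  · linear_combination (norm := noncomm_ring) hfu * j1
  · linear_combination (norm := noncomm_ring) star u * j1f
  · linear_combination (norm := noncomm_ring) csj2 * u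
  · linear_combination (norm := noncomm_ring) star j2 * huf
  · linear_combination (norm := noncomm_ring) hfu * j2 * c
  · linear_combination (norm := noncomm_ring) star u * j2 * hc
  · linear_combination (norm := noncomm_ring) star j1 * hu' * j1 + star j1 * Fj1 + j11
  · linear_combination (norm := noncomm_ring) star j2 * hu' * j2 * c + star j2 * Fj2 * c
      + j22 * c + hc0c
  · linear_combination (norm := noncomm_ring) star j1 * hu' * j2 * c + star j1 * Fj2 * c
      + j12 * c
  · linear_combination (norm := noncomm_ring) star j2 * hu' * j1 + star j2 * Fj1 + j21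
  · linear_combination (norm := noncomm_ring) star u * j2 * csj2 * u - star u * hF * u
      + star u * hFu + hu

theorem CaseA_ok : St_CaseA.{u} := by
  intro A _ hcut hinf hsb g T e f hg hgi hgT hTg he hf heg hfg hef hge hgf hiso
  obtain ⟨hx1, hx2, y, hy1, hy2, hyx, hxy⟩ := hiso
  have hgg : g * g = g := hg.1
  have hgs : star g = g := hg.2
  have hee : e * e = e := he.1
  have hes : star e = e := he.2
  have hff : f * f = f := hf.1
  have hfs : star f = f := hf.2
  have heg' : e * g = e := heg
  have hfg' : f * g = f := hfg
  have hge' : g * e = e := by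
    have := congrArg star heg'
    rw [star_mul, hgs, hes] at this
    exact this
  have hgf' : g * f = f := by
    have := congrArg star hfg'
    rw [star_mul, hgs, hfs] at this
    exact this
  have hfe : f * e = 0 := by
    have := congrArg star hef
    rw [star_mul, hfs, hes, star_zero] at this
    exact this
  set e3 : A := g - e - f with he3
  have h33 : e3 * e3 = e3 := by
    rw [he3]; linear_combination (norm := noncomm_ring) hgg - hge' - hgf' - heg' + hee + hef
      - hfg' + hfe + hff
  have h13 : e * e3 = 0 := by
    rw [he3]; linear_combination (norm := noncomm_ring) heg' - hee - hef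
  have h31 : e3 * e = 0 := by
    rw [he3]; linear_combination (norm := noncomm_ring) hge' - hee - hfe
  have h23 : f * e3 = 0 := by
    rw [he3]; linear_combination (norm := noncomm_ring) hfg' - hfe - hff
  have h32 : e3 * f = 0 := by
    rw [he3]; linear_combination (norm := noncomm_ring) hgf' - hef - hff
  have ge3 : g * e3 = e3 := by
    rw [he3]; linear_combination (norm := noncomm_ring) hgg - hge' - hgf'
  have e3g : e3 * g = e3 := by
    rw [he3]; linear_combination (norm := noncomm_ring) hgg - heg' - hfg'
  have hs3 : star e3 = e3 := by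
    rw [he3, star_sub, star_sub, hgs, hes, hfs]
  obtain ⟨P, W, hP1, hP2, hP3, hW1, hW2, hW3, hW4⟩ := clean_corner g e f e3 T y hgg hee hff h33
    hef hfe h13 h31 h23 h32 (by rw [he3]; abel) hgT hTg hy1 hy2 hyx hxy
    (fun ν h1 h2 => splits_ok hcut e3 ν ⟨h33, hs3⟩ h1 h2)
    (fun c h1 h2 h3 => absorbs_ok hinf hsb g f c hg hf hgi hgf h1
      (by linear_combination (norm := noncomm_ring) -g * h2 + ge3 * c + h2)
      (by linear_combination (norm := noncomm_ring) -h3 * g + c * e3g + h3))
  refine ⟨P, hP1, hP2, hP3, ?_, ?_, W, hW1, hW2, hW3, hW4⟩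
  · linear_combination (norm := noncomm_ring) hgT - hP1
  · linear_combination (norm := noncomm_ring) hTg - hP2

end Pool.Agent.R215.AW
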