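import Pool.Agent.R456.CL.Stm

/-!
# Project CL (MP_3fc7b1_an): case (B) of the dichotomy (Schur complement)
-/

set_option autoImplicit false
set_option linter.unusedVariables false

namespace Pool.Agent.R215.AW

open Pool.Agent.R456.CL

universe u

/-- Schur complement inversion (pure ring identity). -/
theorem schur {R : Type*} [Ring R] (k h α β γ δ V S X g : R) (hkk : k * k = k) (hhh : h * h = h)
    (hkh : k * h = 0) (hhk : h * k = 0) (hg : k + h = g)
    (hβ1 : k * β = β) (hβ2 : β * h = β) (hγ1 : h * γ = γ) (hγ2 : γ * k = γ)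
    (hV1 : h * V = V) (hV2 : V * h = V) (hδ1 : h * δ = δ) (hδ2 : δ * h = δ)
    (hδV : δ * V = h) (hVδ : V * δ = h) (hS : S = α - β * V * γ) (hS1 : k * S = S)
    (hS2 : S * k = S) (hX1 : k * X = X) (hX2 : X * k = X) (hXS : X * S = k) (hSX : S * X = k) :
    ∃ W : R, g * W = W ∧ W * g = W ∧ W * (α + β + γ + δ) = g ∧ (α + β + γ + δ) * W = g := by
  have Vk : V * k = 0 := by linear_combination (norm := noncomm_ring) -hV2 * k + V * hhk
  have kV : k * V = 0 := by linear_combination (norm := noncomm_ring) -k * hV1 + hkh * V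
  have Xh : X * h = 0 := by linear_combination (norm := noncomm_ring) -hX2 * h + X * hkh
  have hX : h * X = 0 := by linear_combination (norm := noncomm_ring) -h * hX1 + hhk * X
  have Sh : S * h = 0 := by linear_combination (norm := noncomm_ring) -hS2 * h + S * hkh
  have hSz : h * S = 0 := by linear_combination (norm := noncomm_ring) -h * hS1 + hhk * S
  have δk : δ * k = 0 := by linear_combination (norm := noncomm_ring) -hδ2 * k + δ * hhk
  have kδ : k * δ = 0 := by linear_combination (norm := noncomm_ring) -k * hδ1 + hkh * δ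
  have hβ : h * β = 0 := by linear_combination (norm := noncomm_ring) -h * hβ1 + hhk * β
  have βk : β * k = 0 := by linear_combination (norm := noncomm_ring) -hβ2 * k + β * hhk
  have kγ : k * γ = 0 := by linear_combination (norm := noncomm_ring) -k * hγ1 + hkh * γ
  have γh : γ * h = 0 := by linear_combination (norm := noncomm_ring) -hγ2 * h + γ * hkh
  have VS : V * S = 0 := by linear_combination (norm := noncomm_ring) -hV2 * S + V * hSz
  have SV : S * V = 0 := by linear_combination (norm := noncomm_ring) -S * hV1 + Sh * V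
  have VX : V * X = 0 := by linear_combination (norm := noncomm_ring) -hV2 * X + V * hX
  have XV : X * V = 0 := by linear_combination (norm := noncomm_ring) -X * hV1 + Xh * V
  have Vβ : V * β = 0 := by linear_combination (norm := noncomm_ring) -hV2 * β + V * hβ
  have γV : γ * V = 0 := by linear_combination (norm := noncomm_ring) -γ * hV1 + γh * V
  have ββ : β * β = 0 := by linear_combination (norm := noncomm_ring) -hβ2 * β + β * hβ
  have γγ : γ * γ = 0 := by linear_combination (norm := noncomm_ring) -γ * hγ1 + γh * γ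
  have Xδ : X * δ = 0 := by linear_combination (norm := noncomm_ring) -X * hδ1 + Xh * δ
  have δX : δ * X = 0 := by linear_combination (norm := noncomm_ring) -hδ2 * X + δ * hX
  have hM : α + β + γ + δ = (1 + β * V) * (S + δ) * (1 + V * γ) := by
    have : α = S + β * V * γ := by rw [hS]; abel
    rw [this]
    linear_combination (norm := noncomm_ring) -β * VS * (1 + V * γ) - SV * γ - β * hVδ * V * γ
      - β * hVδ - hδV * γ - β * hV1 * γ - hβ2 - hγ1
  have h1 : (X + V) * (S + δ) = g := by
    linear_combination (norm := noncomm_ring) hXS + VS + Xδ + hVδ + hg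
  have h2 : (S + δ) * (X + V) = g := by
    linear_combination (norm := noncomm_ring) hSX + SV + δX + hδV + hg
  have ek : (k + h) * X = X := by linear_combination (norm := noncomm_ring) hX1 + hX
  have gX : g * X = X := by rw [← hg]; exact ek
  have Xg : X * g = X := by rw [← hg]; linear_combination (norm := noncomm_ring) hX2 + Xh
  have gV : g * V = V := by rw [← hg]; linear_combination (norm := noncomm_ring) kV + hV1
  have Vg : V * g = V := by rw [← hg]; linear_combination (norm := noncomm_ring) Vk + hV2
  have gβ : g * β = β := by rw [← hg]; linear_combination (norm := noncomm_ring) hβ1 + hβ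
  have γg : γ * g = γ := by rw [← hg]; linear_combination (norm := noncomm_ring) hγ2 + γh
  have hu1 : (1 + V * γ) * (1 - V * γ) = 1 := by
    linear_combination (norm := noncomm_ring) -V * γV * γ
  have hu2 : (1 - V * γ) * (1 + V * γ) = 1 := by
    linear_combination (norm := noncomm_ring) -V * γV * γ
  have hv1 : (1 + β * V) * (1 - β * V) = 1 := by
    linear_combination (norm := noncomm_ring) -β * Vβ * V
  have hv2 : (1 - β * V) * (1 + β * V) = 1 := by
    linear_combination (norm := noncomm_ring) -β * Vβ * V
  refine ⟨(1 - V * γ) * (X + V) * (1 - β * V), ?_, ?_, ?_, ?_⟩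
  · linear_combination (norm := noncomm_ring) gX * (1 - β * V) + gV * (1 - β * V)
      - gV * γ * (X + V) * (1 - β * V)
  · linear_combination (norm := noncomm_ring) (1 - V * γ) * Xg + (1 - V * γ) * Vg
      - (1 - V * γ) * (X + V) * β * Vg
  · rw [hM]
    linear_combination (norm := noncomm_ring)
      (1 - V * γ) * (X + V) * hv2 * (S + δ) * (1 + V * γ) + (1 - V * γ) * h1 * (1 + V * γ)
      - V * γg + gV * γ - V * γg * V * γ + V * γV * γ * 0 - V * γV * γ
  · rw [hM]
    linear_combination (norm := noncomm_ring)
      (1 + β * V) * (S + δ) * hu1 * (X + V) * (1 - β * V) + (1 + β * V) * h2 * (1 - β * V)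
      + β * Vg - gβ * V - β * Vg * β * V - β * Vβ * V

variable {A : Type u} [CStarAlgebra A]

theorem CaseB_ok : St_CaseB.{u} := by
  intro A _ g T k c hg hgT hTg hk hkg hnorm hclean
  have hgg : g * g = g := hg.1
  have hgs : star g = g := hg.2
  have hkk : k * k = k := hk.1
  have hks : star k = k := hk.2
  have hkg' : k * g = k := hkg
  have hgk : g * k = k := by
    have := congrArg star hkg'
    rw [star_mul, hgs, hks] at this
    exact this
  set h : A := g - k with hh
  have hhh : h * h = h := by
    rw [hh]; linear_combination (norm := noncomm_ring) hgg - hgk - hkg' + hkk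
  have hkh : k * h = 0 := by
    rw [hh]; linear_combination (norm := noncomm_ring) hkg' - hkk
  have hhk : h * k = 0 := by
    rw [hh]; linear_combination (norm := noncomm_ring) hgk - hkk
  have hgh : g * h = h := by
    rw [hh]; linear_combination (norm := noncomm_ring) hgg - hgk
  have hhg : h * g = h := by
    rw [hh]; linear_combination (norm := noncomm_ring) hgg - hkg'
  clear_value h
  -- choose the scalar
  obtain ⟨t, ht, hct⟩ : ∃ t : ℂ, t * t = t ∧ 1 / 2 ≤ ‖c - t‖ := by
    by_cases h0 : 1 / 2 ≤ ‖c‖
    · exact ⟨0, by simp, by simpa using h0⟩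
    · refine ⟨1, by simp, ?_⟩
      push Not at h0
      have h1 : ‖(1 : ℂ)‖ ≤ ‖c - 1‖ + ‖c‖ := by
        have : (1 : ℂ) = -(c - 1) + c := by ring
        calc ‖(1 : ℂ)‖ = ‖-(c - 1) + c‖ := by rw [← this]
          _ ≤ ‖-(c - 1)‖ + ‖c‖ := norm_add_le _ _
          _ = ‖c - 1‖ + ‖c‖ := by rw [norm_neg]
      rw [norm_one] at h1
      linarith
  set lam : ℂ := c - t with hlam
  have hlam0 : lam ≠ 0 := by
    intro h0; rw [h0, norm_zero] at hct; norm_num at hct
  set E : A := h * (T - c • g) * h with hE
  have hE' : E = h * T * h - c • h := by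
    rw [hE, mul_sub, sub_mul, mul_smul_comm, smul_mul_assoc, hhg, hhh]
  have hEh : E * h = E := by
    rw [hE]; linear_combination (norm := noncomm_ring) h * (T - c • g) * hhh
  have hhE : h * E = E := by
    rw [hE]; linear_combination (norm := noncomm_ring) hhh * (T - c • g) * h
  set y : A := lam⁻¹ • E with hy
  have hyn : ‖-y‖ < 1 := by
    rw [norm_neg, hy, norm_smul, norm_inv]
    have h1 : ‖lam‖⁻¹ ≤ 2 := by
      rw [inv_le_comm₀ (by positivity) (by norm_num)]
      linarith
    calc ‖lam‖⁻¹ * ‖E‖ ≤ 2 * (1 / 4) := mul_le_mul h1 hnorm (norm_nonneg _) (by norm_num)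
      _ < 1 := by norm_num
  obtain ⟨U, hU⟩ := isUnit_one_sub_of_norm_lt_one hyn
  rw [sub_neg_eq_add] at hU
  have hU1 : ((U⁻¹ : Aˣ) : A) * (1 + y) = 1 := by rw [← hU]; exact U.inv_mul
  have hU2 : (1 + y) * ((U⁻¹ : Aˣ) : A) = 1 := by rw [← hU]; exact U.mul_inv
  set W0 : A := ((U⁻¹ : Aˣ) : A) with hW0
  have hyh : y * h = y := by rw [hy, smul_mul_assoc, hEh]
  have hhy : h * y = y := by rw [hy, mul_smul_comm, hhE]
  have hW0h : h * W0 = W0 * h := by
    linear_combination (norm := noncomm_ring) -hU1 * h * W0 + W0 * h * hU2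
      + W0 * hyh * W0 - W0 * hhy * W0
  set δ : A := lam • (h + y) with hδ
  have hδ' : δ = h * T * h - t • h := by
    have h1 : lam • y = E := by rw [hy, smul_smul, mul_inv_cancel₀ hlam0, one_smul]
    rw [hδ, smul_add, h1, hE', hlam, sub_smul]; abel
  set V : A := lam⁻¹ • (W0 * h) with hV
  have hδV : δ * V = h := by
    have h1 : (h + y) * (W0 * h) = h := by
      linear_combination (norm := noncomm_ring) h * hU2 * h - hhy * W0 * h + hhh
    rw [hδ, hV, smul_mul_smul_comm, mul_inv_cancel₀ hlam0, one_smul, h1]
  have hVδ : V * δ = h := by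
    have h1 : W0 * h * (h + y) = h := by
      linear_combination (norm := noncomm_ring) hU1 * h + W0 * hhh + W0 * hhy - W0 * hyh
    rw [hδ, hV, smul_mul_smul_comm, inv_mul_cancel₀ hlam0, one_smul, h1]
  have hhV : h * V = V := by
    rw [hV, mul_smul_comm]
    congr 1
    linear_combination (norm := noncomm_ring) hW0h * h + W0 * hhh
  have hVh : V * h = V := by
    rw [hV, smul_mul_assoc]
    congr 1
    linear_combination (norm := noncomm_ring) W0 * hhh
  have hhδ : h * δ = δ := by rw [hδ, mul_smul_comm, mul_add, hhh, hhy]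
  have hδh : δ * h = δ := by rw [hδ, smul_mul_assoc, add_mul, hhh, hyh]
  clear_value δ V
  -- the Schur complement
  obtain ⟨P1, hP1, hP2, hP3, hS1, hS2, X, hX1, hX2, hXS, hSX⟩ :=
    hclean (k * T * k - k * T * h * V * (h * T * k))
      (by linear_combination (norm := noncomm_ring) hkk * T * k - hkk * T * h * V * (h * T * k))
      (by linear_combination (norm := noncomm_ring) k * T * hkk - k * T * h * V * h * T * hkk)
  obtain ⟨W, hW1, hW2, hW3, hW4⟩ := schur k h (k * T * k - P1) (k * T * h) (h * T * k) δ V
    (k * T * k - k * T * h * V * (h * T * k) - P1) X g hkk hhh hkh hhk (by rw [hh]; abel)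
    (by linear_combination (norm := noncomm_ring) hkk * T * h)
    (by linear_combination (norm := noncomm_ring) k * T * hhh)
    (by linear_combination (norm := noncomm_ring) hhh * T * k)
    (by linear_combination (norm := noncomm_ring) h * T * hkk)
    hhV hVh hhδ hδh hδV hVδ (by noncomm_ring) hS1 hS2 hX1 hX2 hXS hSX
  have hTsum : T = k * T * k + k * T * h + h * T * k + h * T * h := by
    have hkh1 : k + h = g := by rw [hh]; abel
    linear_combination (norm := noncomm_ring) -hgT - g * hTg - hkh1 * T * g - (k + h) * T * hkh1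
  have hTP : T - (P1 + t • h) = k * T * k - P1 + k * T * h + h * T * k + δ := by
    rw [hδ']
    nth_rw 1 [hTsum]
    abel
  have hh' : g * (t • h) = t • h := by rw [mul_smul_comm, hgh]
  have hh'' : (t • h) * g = t • h := by rw [smul_mul_assoc, hhg]
  have gP : g * P1 = P1 := by
    linear_combination (norm := noncomm_ring) -g * hP1 + hgk * P1 + hP1
  have Pg : P1 * g = P1 := by
    linear_combination (norm := noncomm_ring) -hP2 * g + P1 * hkg' + hP2
  refine ⟨P1 + t • h, ?_, ?_, ?_, ?_, ?_, W, hW1, hW2, ?_, ?_⟩
  · rw [mul_add, gP, hh']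
  · rw [add_mul, Pg, hh'']
  · have h1 : P1 * (t • h) = 0 := by
      have : P1 * h = 0 := by
        linear_combination (norm := noncomm_ring) -hP2 * h + P1 * hkh
      rw [mul_smul_comm, this, smul_zero]
    have h2 : (t • h) * P1 = 0 := by
      have : h * P1 = 0 := by
        linear_combination (norm := noncomm_ring) -h * hP1 + hhk * P1
      rw [smul_mul_assoc, this, smul_zero]
    have h3 : (t • h) * (t • h) = t • h := by
      rw [smul_mul_smul_comm, ht, hhh]
    rw [add_mul, mul_add, mul_add, hP3, h1, h2, h3]; abel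
  · rw [mul_sub, mul_add, hgT, gP, hh']
  · rw [sub_mul, add_mul, hTg, Pg, hh'']
  · rw [hTP]; exact hW3
  · rw [hTP]; exact hW4

end Pool.Agent.R215.AW
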